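import Pool.Agent.H220.IC.Stm

/-! The norm of a row vector. -/

set_option autoImplicit false

namespace Pool.Agent.H903.IC

open Finset Pool.Agent.H220.IC

theorem sum_blocks (L M : ℕ) {V : Type*} [AddCommMonoid V] (G : ℕ → V) :
    ∑ i ∈ range (L * M), G i = ∑ l ∈ range M, ∑ r ∈ range L, G (L * l + r) := by
  induction M with
  | zero => simp
  | succ M ih => rw [Nat.mul_succ, sum_range_add, ih, sum_range_succ]

theorem sum_pairs (n : ℕ) {V : Type*} [AddCommMonoid V] (f : ℕ → V) :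
    ∑ l ∈ range (2 * n), f l = ∑ b ∈ range n, (f (2 * b) + f (2 * b + 1)) := by
  induction n with
  | zero => simp
  | succ n ih =>
    rw [Nat.mul_succ, sum_range_succ _ (2 * n + 1), sum_range_succ _ (2 * n), ih,
      sum_range_succ, add_assoc]

theorem sum_blocks2 (L n : ℕ) {V : Type*} [AddCommMonoid V] (G : ℕ → V) :
    ∑ i ∈ range (L * (2 * n)), G i =
      ∑ r ∈ range L, ∑ b ∈ range n, (G (L * (2 * b) + r) + G (L * (2 * b + 1) + r)) := by
  rw [sum_blocks, sum_pairs, sum_comm]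
  refine sum_congr rfl fun b _ => ?_
  rw [sum_add_distrib]

theorem sg_even {N b r : ℕ} (hr : r < N ^ 2) : sg N (N ^ 2 * (2 * b) + r) = 1 := by
  unfold sg
  have h1 : (N ^ 2 * (2 * b) + r) / N ^ 2 = 2 * b := by
    rw [Nat.mul_add_div (by omega), Nat.div_eq_of_lt hr, add_zero]
  rw [h1, if_pos (by omega)]

theorem sg_odd {N b r : ℕ} (hr : r < N ^ 2) : sg N (N ^ 2 * (2 * b + 1) + r) = -1 := by
  unfold sg
  have h1 : (N ^ 2 * (2 * b + 1) + r) / N ^ 2 = 2 * b + 1 := by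
    rw [Nat.mul_add_div (by omega), Nat.div_eq_of_lt hr, add_zero]
  rw [h1, if_neg (by omega)]

/-- The norm of a row. -/
theorem s_row : S_row := by
  intro N a t hN ht
  refine norm_le_of_ev zero_le_one fun S => ?_
  have hN0 : (0 : ℝ) < N := by exact_mod_cast hN
  have e0 : 2 * N ^ 6 = N ^ 2 * (2 * N ^ 4) := by ring
  have e : ev S (row N a t) = ∑ r ∈ range (N ^ 2), (1 / (N : ℝ) ^ 3) *
      ∑ b ∈ range (N ^ 4),
        (S.1 a (t (N ^ 2 * (2 * b) + r)) - S.1 a (t (N ^ 2 * (2 * b + 1) + r))) := by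
    unfold row
    rw [map_sum, e0, sum_blocks2]
    refine sum_congr rfl fun r hr => ?_
    rw [mul_sum]
    refine sum_congr rfl fun b _ => ?_
    simp only [map_smul, ev_del, smul_eq_mul]
    rw [sg_even (mem_range.1 hr), sg_odd (mem_range.1 hr)]
    ring
  rw [e]
  have hb : ∀ r ∈ range (N ^ 2), |(1 / (N : ℝ) ^ 3) * ∑ b ∈ range (N ^ 4),
      (S.1 a (t (N ^ 2 * (2 * b) + r)) - S.1 a (t (N ^ 2 * (2 * b + 1) + r)))| ≤
      (1 / (N : ℝ) ^ 3) * N := by
    intro r _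
    rw [abs_mul, abs_of_pos (show (0 : ℝ) < 1 / (N : ℝ) ^ 3 by positivity)]
    refine mul_le_mul_of_nonneg_left ?_ (by positivity)
    obtain ⟨-, ω, -, h1, h2, -, h3⟩ := S.2
    have h4 := h3 a (range (N ^ 4)) (fun l => t (N ^ 2 * l + r)) 0
      (t (N ^ 2 * (2 * N ^ 4) + r)) (fun i j hij => ht (by
        have := Nat.mul_le_mul_left (N ^ 2) hij
        omega)) (Nat.zero_le _) (fun l hl => ⟨Nat.zero_le _, ht (by
          have h5 : 2 * l + 1 ≤ 2 * N ^ 4 := by
            have := mem_range.1 hl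
            omega
          have := Nat.mul_le_mul_left (N ^ 2) h5
          omega)⟩)
    have h5 := h1 0
    have h6 := h2 (t (N ^ 2 * (2 * N ^ 4) + r))
    simp only [card_range] at h4
    have h7 : (∑ l ∈ range (N ^ 4), |S.1 a (t (N ^ 2 * (2 * l + 1) + r)) -
        S.1 a (t (N ^ 2 * (2 * l) + r))|) ^ 4 ≤ (N : ℝ) ^ 4 := by
      refine h4.trans ?_
      push_cast
      have h8 : (0 : ℝ) ≤ (N : ℝ) ^ 4 := by positivity
      nlinarith
    have h9 : (∑ l ∈ range (N ^ 4), |S.1 a (t (N ^ 2 * (2 * l + 1) + r)) -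
        S.1 a (t (N ^ 2 * (2 * l) + r))|) ≤ N :=
      (pow_le_pow_iff_left₀ (sum_nonneg fun _ _ => abs_nonneg _) hN0.le (by norm_num)).1 h7
    refine (abs_sum_le_sum_abs _ _).trans (le_trans (le_of_eq ?_) h9)
    exact sum_congr rfl fun l _ => abs_sub_comm _ _
  refine (abs_sum_le_sum_abs _ _).trans ((sum_le_sum hb).trans ?_)
  rw [sum_const, card_range, nsmul_eq_mul]
  push_cast
  have h10 : (N : ℝ) ^ 2 * (1 / (N : ℝ) ^ 3 * N) = 1 := by
    field_simp
  rw [h10]

end Pool.Agent.H903.IC
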